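import Pool.Agent.Y811.IR.Stm

/-!
# Project IR, part PULL: the immediate basin lies in `U`
-/

set_option autoImplicit false

open Filter Topology Metric Set

namespace Pool.Agent.Y606.IR

open Pool.Agent.Y811.IR

theorem q_cont (c : ℂ) : Continuous (q c) := by
  unfold q
  fun_prop

theorem not_frontier {U : Set ℂ} {w : ℂ} (hU : IsOpen U) (h1 : w ∈ closure U)
    (h2 : w ∉ frontier U) : w ∈ U := by
  by_contra h3
  apply h2
  rw [frontier, hU.interior_eq]
  exact ⟨h1, h3⟩

theorem t_PULL (h1 : S_BASIN) : S_PULL := by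
  intro c N b hb h0 p hp U hU h0U hn hcl hdis
  obtain ⟨hN, -, -⟩ := id hb
  obtain ⟨hBo, hbB, hBu⟩ := h1 c N b hb
  have hiter : ∀ m k : ℕ, ∀ z : ℂ, (q c)^[m + k] z = (q c)^[m] ((q c)^[k] z) := fun m k z =>
    Function.iterate_add_apply _ _ _ _
  have hcont : ∀ m : ℕ, Continuous ((q c)^[m]) := fun m => (q_cont c).iterate m
  have hsub : Imm ((q c)^[N]) b ⊆ Basin ((q c)^[N]) b := connectedComponentIn_subset _ _
  have hVo : IsOpen (Imm ((q c)^[N]) b) := hBo.connectedComponentIn
  have hVc : IsPreconnected (Imm ((q c)^[N]) b) := isPreconnected_connectedComponentIn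
  -- points of the frontier are not mapped to `closure U`
  have hfr : ∀ w : ℂ, (q c)^[p] w ∈ closure U → w ∉ frontier U := by
    intro w hw hwf
    exact Set.disjoint_left.1 hdis (Set.mem_image_of_mem _ hwf) (hcl hw)
  -- (1)
  have hbU : b ∈ U := by
    have h2 : Tendsto (fun k : ℕ => (q c)^[(N * (k + 1)) * p] 0) atTop (𝓝 b) := by
      have h3 : Tendsto (fun n : ℕ => ((q c)^[N])^[n] 0) atTop (𝓝 b) := hsub h0
      have h4 : Tendsto (fun k : ℕ => (k + 1) * p) atTop atTop :=
        (tendsto_add_atTop_nat 1).atTop_mul_const' (by omega)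
      have h5 := h3.comp h4
      refine h5.congr fun k => ?_
      show ((q c)^[N])^[(k + 1) * p] 0 = _
      have e : N * ((k + 1) * p) = (N * (k + 1)) * p := by ring
      rw [← Function.iterate_mul, e]
    have h3 : ∀ k : ℕ, (q c)^[(N * (k + 1)) * p] 0 ∈ U := fun k => hn _ (Nat.mul_pos hN (by omega))
    have h4 : b ∈ closure U := mem_closure_of_tendsto h2 (Filter.Eventually.of_forall h3)
    have h5 : Tendsto (fun k : ℕ => (q c)^[(N * (k + 1) + 1) * p] 0) atTop
        (𝓝 ((q c)^[p] b)) := by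
      refine (((hcont p).tendsto b).comp h2).congr fun k => ?_
      show (q c)^[p] ((q c)^[(N * (k + 1)) * p] 0) = _
      have e : p + (N * (k + 1)) * p = (N * (k + 1) + 1) * p := by ring
      rw [← hiter, e]
    have h6 : (q c)^[p] b ∈ closure U :=
      mem_closure_of_tendsto h5 (Filter.Eventually.of_forall fun k => hn _ (by omega))
    exact not_frontier hU h4 (hfr b h6)
  intro z hz
  -- (2)
  have hpath : IsPathConnected (Imm ((q c)^[N]) b) :=
    hVo.isConnected_iff_isPathConnected.1 ⟨⟨0, h0⟩, hVc⟩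
  obtain ⟨γ, hγ⟩ := hpath.joinedIn 0 h0 z hz
  obtain ⟨Z, hZ⟩ : ∃ Z : Set ℂ, Z = Set.range γ := ⟨_, rfl⟩
  have hZc : IsCompact Z := by rw [hZ]; exact isCompact_range γ.continuous
  have hZp : IsPreconnected Z := by rw [hZ]; exact isPreconnected_range γ.continuous
  have hZ0 : (0 : ℂ) ∈ Z := by rw [hZ]; exact ⟨0, γ.source⟩
  have hZz : z ∈ Z := by rw [hZ]; exact ⟨1, γ.target⟩
  have hZB : Z ⊆ Basin ((q c)^[N]) b := by
    rw [hZ]
    rintro _ ⟨t, rfl⟩
    exact hsub (hγ t)
  -- (3)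
  obtain ⟨ε, hε, hball⟩ := Metric.isOpen_iff.1 hU b hbU
  obtain ⟨n0, hn0⟩ := hBu Z hZc hZB ε hε
  have hJ : ∀ x ∈ Z, (q c)^[((n0 + 1) * N) * p] x ∈ U := by
    intro x hx
    have h2 := hball (hn0 ((n0 + 1) * p) (by nlinarith) x hx)
    have e : (n0 + 1) * p * N = ((n0 + 1) * N) * p := by ring
    rwa [e] at h2
  -- (4)
  have hstep : ∀ j : ℕ, (∀ x ∈ Z, (q c)^[(j + 1) * p] x ∈ U) → ∀ x ∈ Z, (q c)^[j * p] x ∈ U := by
    intro j hj
    have hW : IsPreconnected ((q c)^[j * p] '' Z) := hZp.image _ (hcont _).continuousOn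
    have hsu : (q c)^[j * p] '' Z ⊆ U ∪ (closure U)ᶜ := by
      rintro _ ⟨x, hx, rfl⟩
      by_cases h2 : (q c)^[j * p] x ∈ closure U
      · left
        refine not_frontier hU h2 (hfr _ ?_)
        rw [← hiter]
        have e : p + j * p = (j + 1) * p := by ring
        rw [e]
        exact subset_closure (hj x hx)
      · exact Or.inr h2
    have hne : ((q c)^[j * p] '' Z ∩ U).Nonempty := by
      refine ⟨(q c)^[j * p] 0, ⟨0, hZ0, rfl⟩, ?_⟩
      rcases Nat.eq_zero_or_pos j with rfl | hj0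
      · simpa using h0U
      · exact hn j hj0
    have h3 := IsPreconnected.subset_left_of_subset_union hU isClosed_closure.isOpen_compl
      (Set.disjoint_compl_right_iff_subset.2 subset_closure) hsu hne hW
    intro x hx
    exact h3 ⟨x, hx, rfl⟩
  have hall : ∀ j : ℕ, (∀ x ∈ Z, (q c)^[j * p] x ∈ U) → ∀ x ∈ Z, (q c)^[0 * p] x ∈ U := by
    intro j
    induction j with
    | zero => exact fun h => h
    | succ j ih => exact fun h => ih (hstep j h)
  have h2 := hall _ hJ z hZz
  simpa using h2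

end Pool.Agent.Y606.IR
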